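import Mathlib

set_option autoImplicit false

/-!
# The subgroup `U'` (project SV of helper500), generic part

`ρ : G → GL_n(k)` is diagonal on the normal subgroup `U`.
-/

namespace Pool.Agent.H106.SV.UM

variable {G : Type} [Group G] {n : ℕ} {k : Type} [Field k]

section diag

/-- an entry of the product with a diagonal matrix -/
theorem diag_mul_apply {A B : Matrix (Fin n) (Fin n) k} (hA : A.IsDiag) (i i' : Fin n) :
    (A * B) i i' = A i i * B i i' := by
  rw [Matrix.mul_apply, Finset.sum_eq_single i]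
  · intro j _ hj
    rw [hA (Ne.symm hj), zero_mul]
  · intro h
    exact absurd (Finset.mem_univ i) h

theorem isDiag_mul {A B : Matrix (Fin n) (Fin n) k} (hA : A.IsDiag) (hB : B.IsDiag) :
    (A * B).IsDiag := by
  intro i i' hi
  show (A * B) i i' = 0
  rw [diag_mul_apply hA, hB hi, mul_zero]

theorem isDiag_pow {A : Matrix (Fin n) (Fin n) k} (hA : A.IsDiag) (m : ℕ) :
    (A ^ m).IsDiag ∧ ∀ i, (A ^ m) i i = A i i ^ m := by
  induction m with
  | zero =>
    refine ⟨?_, fun i => ?_⟩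
    · rw [pow_zero]
      exact Matrix.isDiag_one
    · rw [pow_zero, pow_zero, Matrix.one_apply_eq]
  | succ m ih =>
    refine ⟨?_, fun i => ?_⟩
    · rw [pow_succ]
      exact isDiag_mul ih.1 hA
    · rw [pow_succ, diag_mul_apply ih.1, ih.2, pow_succ]

end diag

/-- the `M`-th powers of two characters of `U` agree -/
def rel (ρ : G →* GL (Fin n) k) (U : Subgroup G) (M : ℕ) (i i' : Fin n) : Prop :=
  ∀ u ∈ U, (ρ u : Matrix (Fin n) (Fin n) k) i i ^ M = (ρ u : Matrix (Fin n) (Fin n) k) i' i' ^ M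

/-- the algebra `𝒵` -/
def ZZ (ρ : G →* GL (Fin n) k) (U : Subgroup G) (M : ℕ) :
    Submodule k (Matrix (Fin n) (Fin n) k) where
  carrier := {A | A.IsDiag ∧ ∀ i i', rel ρ U M i i' → A i i = A i' i'}
  add_mem' := by
    rintro A B ⟨hA, hA'⟩ ⟨hB, hB'⟩
    refine ⟨hA.add hB, fun i i' h => ?_⟩
    rw [Matrix.add_apply, Matrix.add_apply, hA' i i' h, hB' i i' h]
  zero_mem' := ⟨Matrix.isDiag_zero, fun _ _ _ => rfl⟩
  smul_mem' := by
    rintro c A ⟨hA, hA'⟩
    refine ⟨hA.smul c, fun i i' h => ?_⟩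
    rw [Matrix.smul_apply, Matrix.smul_apply, hA' i i' h]

theorem mem_ZZ {ρ : G →* GL (Fin n) k} {U : Subgroup G} {M : ℕ}
    {A : Matrix (Fin n) (Fin n) k} : A ∈ ZZ ρ U M ↔
      A.IsDiag ∧ ∀ i i', rel ρ U M i i' → A i i = A i' i' := Iff.rfl

theorem one_mem_ZZ (ρ : G →* GL (Fin n) k) (U : Subgroup G) (M : ℕ) :
    (1 : Matrix (Fin n) (Fin n) k) ∈ ZZ ρ U M :=
  ⟨Matrix.isDiag_one, fun i i' _ => by rw [Matrix.one_apply_eq, Matrix.one_apply_eq]⟩

theorem mul_mem_ZZ {ρ : G →* GL (Fin n) k} {U : Subgroup G} {M : ℕ}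
    {A B : Matrix (Fin n) (Fin n) k} (hA : A ∈ ZZ ρ U M) (hB : B ∈ ZZ ρ U M) :
    A * B ∈ ZZ ρ U M := by
  refine ⟨isDiag_mul hA.1 hB.1, fun i i' h => ?_⟩
  rw [diag_mul_apply hA.1, diag_mul_apply hA.1, hA.2 i i' h, hB.2 i i' h]

theorem inv_mem_ZZ {ρ : G →* GL (Fin n) k} {U : Subgroup G} {M : ℕ}
    {A B : Matrix (Fin n) (Fin n) k} (hA : A ∈ ZZ ρ U M) (hAB : A * B = 1) :
    B ∈ ZZ ρ U M := by
  have h1 : ∀ i i', A i i * B i i' = (1 : Matrix (Fin n) (Fin n) k) i i' := by
    intro i i'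
    rw [← diag_mul_apply hA.1, hAB]
  have h2 : ∀ i, A i i * B i i = 1 := fun i => by rw [h1, Matrix.one_apply_eq]
  have h3 : ∀ i, A i i ≠ 0 := fun i h => by
    have := h2 i
    rw [h, zero_mul] at this
    exact zero_ne_one this
  refine ⟨fun i i' hi => ?_, fun i i' h => ?_⟩
  · have h4 := h1 i i'
    rw [Matrix.one_apply_ne hi] at h4
    exact (mul_eq_zero.1 h4).resolve_left (h3 i)
  · have h4 := h2 i
    rw [hA.2 i i' h, ← h2 i'] at h4
    exact mul_left_cancel₀ (h3 i') h4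

/-- the subgroup `U'` -/
def UU (ρ : G →* GL (Fin n) k) (U : Subgroup G) (M : ℕ) : Subgroup G where
  carrier := {g | (ρ g : Matrix (Fin n) (Fin n) k) ∈ ZZ ρ U M}
  mul_mem' := by
    intro a b ha hb
    show ((ρ (a * b) : GL (Fin n) k) : Matrix (Fin n) (Fin n) k) ∈ ZZ ρ U M
    rw [map_mul, Units.val_mul]
    exact mul_mem_ZZ ha hb
  one_mem' := by
    show ((ρ 1 : GL (Fin n) k) : Matrix (Fin n) (Fin n) k) ∈ ZZ ρ U M
    rw [map_one, Units.val_one]
    exact one_mem_ZZ ρ U M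
  inv_mem' := by
    intro a ha
    refine inv_mem_ZZ (A := (ρ a : Matrix (Fin n) (Fin n) k)) ha ?_
    rw [← Units.val_mul, ← map_mul, mul_inv_cancel, map_one, Units.val_one]

theorem mem_UU {ρ : G →* GL (Fin n) k} {U : Subgroup G} {M : ℕ} {g : G} :
    g ∈ UU ρ U M ↔ (ρ g : Matrix (Fin n) (Fin n) k) ∈ ZZ ρ U M := Iff.rfl

section U

variable {ρ : G →* GL (Fin n) k} {U : Subgroup G}
  (hd : ∀ u ∈ U, (ρ u : Matrix (Fin n) (Fin n) k).IsDiag) (M : ℕ)

/-- the character `i` of `U` -/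
def chr (hd : ∀ u ∈ U, (ρ u : Matrix (Fin n) (Fin n) k).IsDiag) (i : Fin n) : U →* k where
  toFun u := (ρ u : Matrix (Fin n) (Fin n) k) i i
  map_one' := by
    show ((ρ ((1 : U) : G) : GL (Fin n) k) : Matrix (Fin n) (Fin n) k) i i = 1
    rw [Subgroup.coe_one, map_one, Units.val_one, Matrix.one_apply_eq]
  map_mul' := by
    intro u v
    show ((ρ ((u * v : U) : G) : GL (Fin n) k) : Matrix (Fin n) (Fin n) k) i i = _
    rw [Subgroup.coe_mul, map_mul, Units.val_mul, diag_mul_apply (hd u u.2)]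

include hd in
theorem pow_mem_ZZ (u : G) (hu : u ∈ U) :
    (ρ u : Matrix (Fin n) (Fin n) k) ^ M ∈ ZZ ρ U M := by
  obtain ⟨h1, h2⟩ := isDiag_pow (hd u hu) M
  refine ⟨h1, fun i i' h => ?_⟩
  rw [h2, h2]
  exact h u hu

include hd in
/-- `𝒵` is spanned by the powers -/
theorem ZZ_le_span : ZZ ρ U M ≤
    Submodule.span k {A : Matrix (Fin n) (Fin n) k | ∃ u ∈ U, A = (ρ u : Matrix _ _ k) ^ M} := by
  classical
  intro A hA
  by_contra hcon
  obtain ⟨f, hf1, hf2⟩ := Submodule.exists_le_ker_of_notMem hcon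
  -- the coefficients of the linear form on the diagonal
  set c : Fin n → k := fun i => f (Matrix.single i i 1) with hc
  have hdiag : ∀ D : Matrix (Fin n) (Fin n) k, D.IsDiag → f D = ∑ i, c i * D i i := by
    intro D hD
    have e1 : D = ∑ i, D i i • Matrix.single i i (1 : k) := by
      ext a b
      rw [Matrix.sum_apply]
      by_cases hab : a = b
      · subst hab
        rw [Finset.sum_eq_single a]
        · simp
        · intro j _ hj
          simp [hj]
        · intro h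
          exact absurd (Finset.mem_univ a) h
      · rw [hD hab, Finset.sum_eq_zero]
        intro j _
        simp only [Matrix.smul_apply, smul_eq_mul, mul_eq_zero]
        right
        rw [Matrix.single_apply]
        rw [if_neg]
        rintro ⟨h1, h2⟩
        exact hab (h1.symm.trans h2)
    conv_lhs => rw [e1]
    rw [map_sum]
    refine Finset.sum_congr rfl fun i _ => ?_
    rw [map_smul, smul_eq_mul, mul_comm]
  -- the characters
  set χ : Fin n → (U →* k) := fun i => (chr hd i) ^ M with hχ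
  have hχv : ∀ i (u : U), χ i u = (ρ u : Matrix (Fin n) (Fin n) k) i i ^ M := fun i u => rfl
  have hrel : ∀ i i', χ i = χ i' → rel ρ U M i i' := by
    intro i i' h u hu
    have := DFunLike.congr_fun h ⟨u, hu⟩
    exact this
  have hzero : ∀ u : U, ∑ i, c i * χ i u = 0 := by
    intro u
    obtain ⟨h1, h2⟩ := isDiag_pow (hd u u.2) M
    have h3 : f ((ρ u : Matrix (Fin n) (Fin n) k) ^ M) = 0 := by
      have h4 : (ρ u : Matrix (Fin n) (Fin n) k) ^ M ∈ LinearMap.ker f :=
        hf2 (Submodule.subset_span ⟨u, u.2, rfl⟩)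
      exact LinearMap.mem_ker.1 h4
    rw [hdiag _ h1] at h3
    rw [← h3]
    refine Finset.sum_congr rfl fun i _ => ?_
    rw [h2, hχv]
  set s : Finset (U →* k) := Finset.univ.image χ with hs
  have hli := linearIndependent_iff'.1 (linearIndependent_monoidHom U k) s
    (fun ψ => ∑ i ∈ Finset.univ.filter (fun i => χ i = ψ), c i) (by
      funext u
      rw [Finset.sum_apply, Pi.zero_apply, ← hzero u,
        ← Finset.sum_fiberwise_of_maps_to (s := Finset.univ) (t := s) (g := χ)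
          (fun i _ => Finset.mem_image_of_mem χ (Finset.mem_univ i))]
      refine Finset.sum_congr rfl fun ψ _ => ?_
      rw [Pi.smul_apply, smul_eq_mul, Finset.sum_mul]
      refine Finset.sum_congr rfl fun i hi => ?_
      rw [(Finset.mem_filter.1 hi).2])
  apply hf1
  rw [hdiag A hA.1, ← Finset.sum_fiberwise_of_maps_to (s := Finset.univ) (t := s) (g := χ)
          (fun i _ => Finset.mem_image_of_mem χ (Finset.mem_univ i))]
  refine Finset.sum_eq_zero fun ψ hψ => ?_
  obtain ⟨i0, -, hi0⟩ := Finset.mem_image.1 hψ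
  have h5 : ∀ i ∈ Finset.univ.filter (fun i => χ i = ψ), c i * A i i = c i * A i0 i0 := by
    intro i hi
    have h6 := (Finset.mem_filter.1 hi).2
    rw [hA.2 i i0 (hrel i i0 (h6.trans hi0.symm))]
  rw [Finset.sum_congr rfl h5, ← Finset.sum_mul, hli ψ hψ, zero_mul]

include hd in
/-- conjugation -/
theorem conj_mem [U.Normal] (h : G) {A : Matrix (Fin n) (Fin n) k} (hA : A ∈ ZZ ρ U M) :
    (ρ h : Matrix (Fin n) (Fin n) k) * A * (ρ h⁻¹ : Matrix (Fin n) (Fin n) k) ∈ ZZ ρ U M := by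
  have h1 := ZZ_le_span hd M hA
  refine Submodule.span_induction (p := fun A _ =>
    (ρ h : Matrix (Fin n) (Fin n) k) * A * (ρ h⁻¹ : Matrix (Fin n) (Fin n) k) ∈ ZZ ρ U M)
    ?_ ?_ ?_ ?_ h1
  · rintro _ ⟨u, hu, rfl⟩
    have e1 : (ρ h : Matrix (Fin n) (Fin n) k) * (ρ u : Matrix (Fin n) (Fin n) k) ^ M *
        (ρ h⁻¹ : Matrix (Fin n) (Fin n) k) =
        (ρ (h * u * h⁻¹) : Matrix (Fin n) (Fin n) k) ^ M := by
      rw [← Units.val_pow_eq_pow_val, ← Units.val_pow_eq_pow_val, ← Units.val_mul,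
        ← Units.val_mul, ← map_pow, ← map_pow, ← map_mul, ← map_mul, conj_pow]
    rw [e1]
    exact pow_mem_ZZ hd M _ (Subgroup.Normal.conj_mem inferInstance u hu h)
  · rw [mul_zero, zero_mul]
    exact Submodule.zero_mem _
  · intro x y _ _ hx hy
    rw [mul_add, add_mul]
    exact Submodule.add_mem _ hx hy
  · intro a x _ hx
    rw [Matrix.mul_smul, Matrix.smul_mul]
    exact Submodule.smul_mem _ a hx

include hd in
theorem UU_normal [U.Normal] : (UU ρ U M).Normal := by
  constructor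
  intro g hg h
  rw [mem_UU] at hg ⊢
  rw [map_mul, map_mul, Units.val_mul, Units.val_mul]
  exact conj_mem hd M h hg

theorem ker_le_UU : ρ.ker ≤ UU ρ U M := by
  intro g hg
  rw [mem_UU, MonoidHom.mem_ker.1 hg, Units.val_one]
  exact one_mem_ZZ ρ U M

include hd in
theorem pow_mem_UU {u : G} (hu : u ∈ U) : u ^ M ∈ UU ρ U M := by
  rw [mem_UU, map_pow, Units.val_pow_eq_pow_val]
  exact pow_mem_ZZ hd M u hu

include hd in
theorem comm_ker {a b : G} (ha : a ∈ U) (hb : b ∈ U) : ρ (a * b) = ρ (b * a) := by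
  apply Units.ext
  rw [map_mul, map_mul, Units.val_mul, Units.val_mul]
  ext i i'
  rw [diag_mul_apply (hd a ha), diag_mul_apply (hd b hb)]
  by_cases h : i = i'
  · subst h
    rw [mul_comm]
  · rw [hd a ha h, hd b hb h, mul_zero, mul_zero]

include hd in
theorem derived {r : ℕ} (hr : derivedSeries G r ≤ U) : derivedSeries G (r + 1) ≤ ρ.ker := by
  rw [derivedSeries_succ]
  refine (Subgroup.commutator_mono hr hr).trans ?_
  rw [Subgroup.commutator_le]
  intro a ha b hb
  have e1 : a * b * a⁻¹ * b⁻¹ = a * b * (b * a)⁻¹ := by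
    rw [mul_inv_rev, ← mul_assoc]
  rw [MonoidHom.mem_ker, commutatorElement_def, e1, map_mul, comm_ker hd ha hb, ← map_mul,
    mul_inv_cancel, map_one]

include hd in
/-- `u ↦ (ρ u i i / ρ u i' i')` over the related pairs -/
theorem relIndex_le (hM : 0 < M) : (UU ρ U M).relIndex U ≤ M ^ (n ^ 2) := by
  classical
  have hMz : NeZero M := ⟨hM.ne'⟩
  -- the quotients of the characters
  set φ : U →* (Fin n × Fin n → kˣ) := MonoidHom.pi (fun p =>
    if rel ρ U M p.1 p.2 then
      (chr hd p.1).toHomUnits * ((chr hd p.2).toHomUnits)⁻¹ else 1) with hφ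
  have hval : ∀ (u : U) (p : Fin n × Fin n), rel ρ U M p.1 p.2 →
      φ u p = (chr hd p.1).toHomUnits u * ((chr hd p.2).toHomUnits u)⁻¹ := by
    intro u p h
    rw [hφ, MonoidHom.pi_apply, if_pos h]
    rfl
  have hroot : ∀ (u : U) (p : Fin n × Fin n), φ u p ∈ rootsOfUnity M k := by
    intro u p
    rw [mem_rootsOfUnity]
    by_cases h : rel ρ U M p.1 p.2
    · rw [hval u p h, mul_pow, inv_pow, mul_inv_eq_one]
      apply Units.ext
      rw [Units.val_pow_eq_pow_val, Units.val_pow_eq_pow_val, MonoidHom.coe_toHomUnits,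
        MonoidHom.coe_toHomUnits]
      exact h u u.2
    · have : φ u p = 1 := by
        rw [hφ, MonoidHom.pi_apply, if_neg h]
        rfl
      rw [this, one_pow]
  have hker : φ.ker ≤ (UU ρ U M).subgroupOf U := by
    intro u hu
    rw [Subgroup.mem_subgroupOf, mem_UU]
    refine ⟨hd u u.2, fun i i' h => ?_⟩
    have h1 : φ u (i, i') = 1 := by
      rw [MonoidHom.mem_ker.1 hu]
      rfl
    rw [hval u (i, i') h, mul_inv_eq_one] at h1
    have h2 := congrArg Units.val h1
    rw [MonoidHom.coe_toHomUnits, MonoidHom.coe_toHomUnits] at h2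
    exact h2
  -- the size of the range
  have hcard : Nat.card φ.range ≤ M ^ (n ^ 2) ∧ Nat.card φ.range ≠ 0 := by
    set g : φ.range → (Fin n × Fin n → rootsOfUnity M k) := fun x p => ⟨x.1 p, by
      obtain ⟨u, hu⟩ := x.2
      rw [← hu]
      exact hroot u p⟩ with hg
    have hginj : Function.Injective g := by
      intro x y h
      apply Subtype.ext
      funext p
      exact congrArg Subtype.val (congrFun h p)
    have hfin : Finite φ.range := Finite.of_injective g hginj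
    refine ⟨?_, Nat.card_ne_zero.2 ⟨⟨1⟩, hfin⟩⟩
    refine (Nat.card_le_card_of_injective g hginj).trans ?_
    rw [Nat.card_pi, Finset.prod_const, Finset.card_univ, Fintype.card_prod, Fintype.card_fin,
      ← pow_two]
    exact Nat.pow_le_pow_left (card_rootsOfUnity k M) _
  have hidx : φ.ker.index = Nat.card φ.range := Subgroup.index_ker φ
  show ((UU ρ U M).subgroupOf U).index ≤ M ^ (n ^ 2)
  have h1 : ((UU ρ U M).subgroupOf U).index ∣ φ.ker.index := Subgroup.index_dvd_of_le hker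
  rw [hidx] at h1
  exact (Nat.le_of_dvd (Nat.pos_of_ne_zero hcard.2) h1).trans hcard.1

end U

/-- **The subgroup `U'`.** -/
theorem generic (ρ : G →* GL (Fin n) k) (U : Subgroup G) [U.Normal]
    (hd : ∀ u ∈ U, (ρ u : Matrix (Fin n) (Fin n) k).IsDiag) (hk : ρ.ker ≤ U)
    (hfin : ρ.ker.index ≠ 0) (B : ℕ) (hB : U.index ≤ B) (hsol : ∃ r, derivedSeries G r ≤ U)
    (M : ℕ) (hM : 0 < M) :
    (UU ρ U M).Normal ∧ ρ.ker ≤ UU ρ U M ∧ (UU ρ U M).index ≤ B * M ^ (n ^ 2) ∧
      (∃ r, derivedSeries G r ≤ UU ρ U M) ∧ ∀ u ∈ U, u ^ M ∈ UU ρ U M := by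
  refine ⟨UU_normal hd M, ker_le_UU M, ?_, ?_, fun u hu => pow_mem_UU hd M hu⟩
  · have h1 : (UU ρ U M ⊓ U).index ≠ 0 := by
      intro h
      have h2 : (UU ρ U M ⊓ U).index ∣ ρ.ker.index :=
        Subgroup.index_dvd_of_le (le_inf (ker_le_UU M) hk)
      rw [h] at h2
      exact hfin (Nat.eq_zero_of_zero_dvd h2)
    have h3 : (UU ρ U M).index ≤ (UU ρ U M ⊓ U).index :=
      Nat.le_of_dvd (Nat.pos_of_ne_zero h1) (Subgroup.index_dvd_of_le inf_le_left)
    have h4 : (UU ρ U M ⊓ U).relIndex U * U.index = (UU ρ U M ⊓ U).index :=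
      Subgroup.relIndex_mul_index inf_le_right
    rw [Subgroup.inf_relIndex_right] at h4
    rw [← h4] at h3
    calc (UU ρ U M).index ≤ (UU ρ U M).relIndex U * U.index := h3
      _ ≤ M ^ (n ^ 2) * B := Nat.mul_le_mul (relIndex_le hd M hM) hB
      _ = B * M ^ (n ^ 2) := mul_comm _ _
  · obtain ⟨r, hr⟩ := hsol
    exact ⟨r + 1, (derived hd hr).trans (ker_le_UU M)⟩

end Pool.Agent.H106.SV.UM
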