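import Pool.Agent.H500.SV.Stm
import Pool.Agent.H106.SV.UMg

set_option autoImplicit false

namespace Pool.Agent.H106.SV.UM

open NumberField IsDedekindDomain Polynomial
open Pool.Agent.W401.Cheb (GK)
open Pool.Agent.H500.HC (QBar)
open Pool.Agent.H500.SV

theorem index_ker_ne_zero (K : Type) [Field K] [NumberField K] {H : Type} [Group H]
    (ρ : GK K →* H) (h : IsOpen (ρ.ker : Set (GK K))) : ρ.ker.index ≠ 0 := by
  have h1 : Finite (GK K ⧸ ρ.ker) := Subgroup.quotient_finite_of_isOpen ρ.ker h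
  exact (Subgroup.finiteIndex_of_finite_quotient (H := ρ.ker)).index_ne_zero

/-- **PART 8.** -/
theorem main : Pool.Agent.H500.SV.S_UM := by
  intro K E _ _ _ _ j N n B P lam S M hM
  have hUn := S.hUn
  obtain ⟨h1, h2, h3, h4, h5⟩ := generic S.ρ S.U S.hdiag S.hUk
    (index_ker_ne_zero K S.ρ S.hop) B S.hUi S.hsol M hM
  exact ⟨UU S.ρ S.U M, fun g => Iff.rfl, h1, Subgroup.isOpen_mono h2 S.hop, h2, h3, h4, h5⟩

end Pool.Agent.H106.SV.UM
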